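import Pool.Agent.Helper78.KX.Defs2
import Pool.Agent.Helper31.KX.Few
import Pool.Agent.Helper95.KX.SMeas

/-!
# KX block X1c: from a transcendence measure to few digits
-/

set_option autoImplicit false

namespace Pool.Agent.Helper9.KX

open Filter Topology Pool.Agent.Helper78.KX
open Pool.Agent.Helper31.KX (Gd_mono Gd_triv)

lemma supp_mul (P : Polynomial ℤ) (n : ℕ) : (P * Polynomial.X ^ n).support.card ≤ P.support.card := by
  refine (Finset.card_le_card (t := P.support.image (· + n)) ?_).trans Finset.card_image_le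
  intro i hi
  rw [Polynomial.mem_support_iff, Polynomial.coeff_mul_X_pow'] at hi
  split_ifs at hi with h
  · exact Finset.mem_image.2 ⟨i - n, Polynomial.mem_support_iff.2 hi, by omega⟩
  · exact absurd rfl hi

lemma supp_C (k : ℤ) : (Polynomial.C k).support.card ≤ 1 :=
  (Finset.card_le_card (Polynomial.support_C_subset k)).trans (by simp)

/-- the quantitative version of `few_poly` -/
theorem few_quant {θ : ℝ} (hθ : 1 < θ) {A k₀ : ℕ} {C : ℝ} (hC : 0 < C)
    (hm : ∀ (d H : ℕ) (P : Polynomial ℤ), P ≠ 0 → P.natDegree ≤ d → P.support.card ≤ k₀ + 1 → (∀ i, |P.coeff i| ≤ H) →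
      Real.exp (-(C * ((d : ℝ) + Real.log (1 + H)) ^ A)) ≤ |Polynomial.aeval θ P|) (m : ℕ) (hmk : m ≤ k₀) :
    ∃ (C' : ℝ) (a : ℕ), 0 < C' ∧ ∀ (H d : ℕ) (P : Polynomial ℤ), P ≠ 0 → P.natDegree ≤ d → P.support.card ≤ k₀ - m + 1 →
      (∀ i, |P.coeff i| ≤ H) →
      Gd θ H m (Real.exp (-(C' * ((d : ℝ) + Real.log (1 + H) + 1) ^ a))) (Polynomial.aeval θ P) := by
  have hθ0 : 0 < θ := by linarith
  have hlog : 0 < Real.log θ := Real.log_pos hθ
  have hLam : ∀ H : ℕ, 0 ≤ Real.log (1 + (H : ℝ)) := fun H => Real.log_nonneg (by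
    have : (0 : ℝ) ≤ H := Nat.cast_nonneg H
    linarith)
  induction m with
  | zero =>
    refine ⟨C, A, hC, fun H d P hP hd hs hH => ?_⟩
    show Real.exp (-(C * ((d : ℝ) + Real.log (1 + H) + 1) ^ A)) ≤ |Polynomial.aeval θ P|
    refine le_trans (Real.exp_le_exp.2 (neg_le_neg ?_)) (hm d H P hP hd (by omega) hH)
    have h1 := hLam H
    have h2 : (0 : ℝ) ≤ d := Nat.cast_nonneg d
    exact mul_le_mul_of_nonneg_left (pow_le_pow_left₀ (by positivity) (by linarith) A) hC.le
  | succ m ih =>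
    obtain ⟨Cm, am, hCm, ih⟩ := ih (by omega)
    have hθ1 : 0 < θ - 1 := by linarith
    have hR : 1 < θ / (θ - 1) := by
      rw [lt_div_iff₀ hθ1]
      linarith
    have hlR : 0 < Real.log (θ / (θ - 1)) := Real.log_pos hR
    obtain ⟨K, hK⟩ : ∃ K : ℝ, K = (1 + Real.log (θ / (θ - 1)) + 1 + C) / Real.log θ := ⟨_, rfl⟩
    have hK0 : 0 < K := by rw [hK]; positivity
    refine ⟨(K + 1) * Real.log θ + Cm * (K + 2) ^ am + C + 1, (A + 1) * (am + 1), by positivity, fun H d P hP hd hs hH => ?_⟩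
    obtain ⟨x, hx⟩ : ∃ x : ℝ, x = (d : ℝ) + Real.log (1 + H) + 1 := ⟨_, rfl⟩
    have h1 := hLam H
    have h2 : (0 : ℝ) ≤ d := Nat.cast_nonneg d
    have hx1 : 1 ≤ x := by rw [hx]; linarith
    have hx0 : 0 < x := by linarith
    have hH0 : (0 : ℝ) ≤ H := Nat.cast_nonneg H
    obtain ⟨y, hy⟩ : ∃ y : ℝ, y = Polynomial.aeval θ P := ⟨_, rfl⟩
    have hy1 : Real.exp (-(C * x ^ A)) ≤ |y| := by
      rw [hy]
      refine le_trans (Real.exp_le_exp.2 (neg_le_neg ?_)) (hm d H P hP hd (by omega) hH)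
      exact mul_le_mul_of_nonneg_left (pow_le_pow_left₀ (by positivity) (by linarith) A) hC.le
    obtain ⟨E, hE⟩ : ∃ E : ℕ, E = ⌈K * x ^ (A + 1)⌉₊ := ⟨_, rfl⟩
    have hE1 : K * x ^ (A + 1) ≤ E := by rw [hE]; exact Nat.le_ceil _
    have hxA : 1 ≤ x ^ (A + 1) := one_le_pow₀ hx1
    have hE2 : (E : ℝ) ≤ (K + 1) * x ^ (A + 1) := by
      have := Nat.ceil_lt_add_one (a := K * x ^ (A + 1)) (by positivity)
      rw [← hE] at this
      linarith
    have hxx : x ≤ x ^ (A + 1) := by
      calc x = x ^ 1 := (pow_one x).symm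
        _ ≤ x ^ (A + 1) := pow_le_pow_right₀ hx1 (by omega)
    have hxA' : x ^ A ≤ x ^ (A + 1) := pow_le_pow_right₀ hx1 (by omega)
    have hbig : x ^ (A + 1) ≤ x ^ ((A + 1) * (am + 1)) := pow_le_pow_right₀ hx1 (by nlinarith)
    have hbig' : (x ^ (A + 1)) ^ am ≤ x ^ ((A + 1) * (am + 1)) := by
      rw [← pow_mul]
      exact pow_le_pow_right₀ hx1 (by nlinarith)
    have hbig1 : 1 ≤ x ^ ((A + 1) * (am + 1)) := one_le_pow₀ hx1
    -- large shifts
    have hElarge : ∀ e : ℕ, E ≤ e → (H : ℝ) + H / (θ - 1) ≤ |y| / 2 * θ ^ (e + 1) := by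
      intro e he
      have g1 : (H : ℝ) + H / (θ - 1) = H * (θ / (θ - 1)) := by
        field_simp
        ring
      have g2 : (H : ℝ) * (θ / (θ - 1)) ≤ Real.exp (Real.log (1 + H) + Real.log (θ / (θ - 1))) := by
        rw [Real.exp_add, Real.exp_log (by linarith), Real.exp_log (by linarith)]
        have : 0 < θ / (θ - 1) := by linarith
        nlinarith
      have g3 : Real.exp (1 + Real.log (1 + H) + Real.log (θ / (θ - 1)) + C * x ^ A) ≤ θ ^ (e + 1) := by
        rw [← Real.rpow_natCast θ (e + 1), ← Real.exp_log hθ0, ← Real.exp_mul, Real.exp_log hθ0]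
        apply Real.exp_le_exp.2
        have g4 : K * x ^ (A + 1) * Real.log θ = (1 + Real.log (θ / (θ - 1)) + 1 + C) * x ^ (A + 1) := by
          rw [hK]
          field_simp
        have g5 : K * x ^ (A + 1) ≤ ((e + 1 : ℕ) : ℝ) := by
          have : (E : ℝ) ≤ e := by exact_mod_cast he
          push_cast
          linarith
        have g6 : K * x ^ (A + 1) * Real.log θ ≤ Real.log θ * ((e + 1 : ℕ) : ℝ) := by
          rw [mul_comm (Real.log θ)]
          gcongr
        have g7 : Real.log (1 + H) ≤ x ^ (A + 1) := by linarith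
        have g8 : Real.log (θ / (θ - 1)) ≤ Real.log (θ / (θ - 1)) * x ^ (A + 1) := le_mul_of_one_le_right hlR.le hxA
        have g9 : C * x ^ A ≤ C * x ^ (A + 1) := by gcongr
        nlinarith
      have g4 : Real.exp (Real.log (1 + H) + Real.log (θ / (θ - 1))) * 2 ≤ |y| * θ ^ (e + 1) := by
        calc Real.exp (Real.log (1 + H) + Real.log (θ / (θ - 1))) * 2 ≤
              Real.exp (Real.log (1 + H) + Real.log (θ / (θ - 1))) * Real.exp 1 := by
              gcongr
              have := Real.add_one_le_exp (1 : ℝ)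
              linarith
          _ = Real.exp (-(C * x ^ A)) * Real.exp (1 + Real.log (1 + H) + Real.log (θ / (θ - 1)) + C * x ^ A) := by
              rw [← Real.exp_add, ← Real.exp_add]
              congr 1
              ring
          _ ≤ |y| * θ ^ (e + 1) := by gcongr
      rw [g1]
      linarith
    have hhalf : Real.exp (-(((K + 1) * Real.log θ + Cm * (K + 2) ^ am + C + 1) * x ^ ((A + 1) * (am + 1)))) ≤ |y| / 2 := by
      have g1 : Real.exp (-(C * x ^ A) - 1) ≤ |y| / 2 := by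
        rw [Real.exp_sub, div_le_div_iff₀ (Real.exp_pos _) (by norm_num)]
        have := Real.add_one_le_exp (1 : ℝ)
        have g2 : 0 ≤ |y| := abs_nonneg _
        nlinarith
      refine le_trans (Real.exp_le_exp.2 ?_) g1
      have g2 : C * x ^ A ≤ C * x ^ ((A + 1) * (am + 1)) := by
        have := hxA'.trans hbig
        gcongr
      have g3 : 0 ≤ ((K + 1) * Real.log θ + Cm * (K + 2) ^ am) * x ^ ((A + 1) * (am + 1)) := by positivity
      nlinarith
    rw [← hx, ← hy]
    refine ⟨hhalf.trans (by linarith [abs_nonneg y]), fun e k hk hk' => ?_⟩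
    rcases lt_or_ge e E with he | he
    · -- small shifts
      have hQ : P * Polynomial.X ^ (e + 1) + Polynomial.C k ≠ 0 := by
        intro h0
        have := congrArg (fun Q => Polynomial.coeff Q 0) h0
        simp at this
        exact hk this
      have hQd : (P * Polynomial.X ^ (e + 1) + Polynomial.C k).natDegree ≤ d + E := by
        refine (Polynomial.natDegree_add_le _ _).trans (max_le ?_ ?_)
        · refine Polynomial.natDegree_mul_le.trans ?_
          rw [Polynomial.natDegree_X_pow]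
          omega
        · rw [Polynomial.natDegree_C]
          omega
      have hQH : ∀ i, |(P * Polynomial.X ^ (e + 1) + Polynomial.C k).coeff i| ≤ (H : ℤ) := by
        intro i
        rw [Polynomial.coeff_add, Polynomial.coeff_mul_X_pow', Polynomial.coeff_C]
        by_cases hi : e + 1 ≤ i
        · rw [if_pos hi, if_neg (by omega), add_zero]
          exact hH _
        · rw [if_neg hi, zero_add]
          split_ifs
          · exact hk'
          · simp
      have hQs : (P * Polynomial.X ^ (e + 1) + Polynomial.C k).support.card ≤ k₀ - m + 1 := by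
        have g1 := supp_mul P (e + 1)
        have g2 := supp_C k
        have g3 := (Finset.card_le_card (Polynomial.support_add (p := P * Polynomial.X ^ (e + 1)) (q := Polynomial.C k))).trans
          (Finset.card_union_le _ _)
        omega
      have hg := ih H (d + E) _ hQ hQd hQs hQH
      have e1 : Polynomial.aeval θ (P * Polynomial.X ^ (e + 1) + Polynomial.C k) = y * θ ^ (e + 1) + k := by
        simp [hy]
      rw [e1] at hg
      refine Gd_mono hθ H m ?_ hg
      have e2 : θ ^ (e + 1) = Real.exp (((e + 1 : ℕ) : ℝ) * Real.log θ) := by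
        rw [mul_comm, Real.exp_mul, Real.exp_log hθ0, Real.rpow_natCast]
      rw [e2, ← Real.exp_add]
      apply Real.exp_le_exp.2
      have e3 : ((e + 1 : ℕ) : ℝ) ≤ (K + 1) * x ^ (A + 1) := by
        have : ((e + 1 : ℕ) : ℝ) ≤ E := by exact_mod_cast he
        linarith
      have e4 : (((d + E : ℕ) : ℝ) + Real.log (1 + H) + 1) ≤ (K + 2) * x ^ (A + 1) := by
        push_cast
        have : (d : ℝ) + E + Real.log (1 + H) + 1 = x + E := by rw [hx]; ring
        rw [this]
        linarith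
      have e5 : (((d + E : ℕ) : ℝ) + Real.log (1 + H) + 1) ^ am ≤ (K + 2) ^ am * x ^ ((A + 1) * (am + 1)) := by
        calc (((d + E : ℕ) : ℝ) + Real.log (1 + H) + 1) ^ am ≤ ((K + 2) * x ^ (A + 1)) ^ am := by
              apply pow_le_pow_left₀ _ e4
              positivity
          _ = (K + 2) ^ am * (x ^ (A + 1)) ^ am := mul_pow _ _ _
          _ ≤ _ := by gcongr
      have e6 : ((e + 1 : ℕ) : ℝ) * Real.log θ ≤ (K + 1) * Real.log θ * x ^ ((A + 1) * (am + 1)) := by
        calc ((e + 1 : ℕ) : ℝ) * Real.log θ ≤ (K + 1) * x ^ (A + 1) * Real.log θ := by gcongr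
          _ = (K + 1) * Real.log θ * x ^ (A + 1) := by ring
          _ ≤ _ := by gcongr
      have e7 : Cm * (((d + E : ℕ) : ℝ) + Real.log (1 + H) + 1) ^ am ≤ Cm * (K + 2) ^ am * x ^ ((A + 1) * (am + 1)) := by
        rw [mul_assoc]
        gcongr
      have e8 : 0 ≤ (C + 1) * x ^ ((A + 1) * (am + 1)) := by positivity
      nlinarith
    · refine Gd_mono hθ H m ?_ (Gd_triv hθ H m _)
      have e1 : |y * θ ^ (e + 1)| = |y| * θ ^ (e + 1) := by
        rw [abs_mul, abs_of_pos (by positivity : (0 : ℝ) < θ ^ (e + 1))]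
      have e2 : |(k : ℝ)| ≤ H := by exact_mod_cast hk'
      have e3 : |y * θ ^ (e + 1)| - |(k : ℝ)| ≤ |y * θ ^ (e + 1) + k| := by
        have := abs_sub_abs_le_abs_sub (y * θ ^ (e + 1)) (-(k : ℝ))
        rw [abs_neg, sub_neg_eq_add] at this
        exact this
      have e4 := hElarge e he
      have e5 := mul_le_mul_of_nonneg_right hhalf (by positivity : (0 : ℝ) ≤ θ ^ (e + 1))
      linarith

theorem fewAll_of_smeas {θ : ℝ} (hθ : 1 < θ) (hSM : Pool.Agent.Helper95.KX.SMeas θ) : FewAll θ := by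
  intro k B
  obtain ⟨A, C, hC, hm⟩ := hSM k
  have hθ0 : 0 < θ := by linarith
  have hθ1 : 0 < θ - 1 := by linarith
  have hlog : 0 < Real.log θ := Real.log_pos hθ
  obtain ⟨C', a, hC', hq⟩ := few_quant hθ hC hm k le_rfl
  have hk0 : (0 : ℝ) ≤ k := Nat.cast_nonneg k
  have hB0 : (0 : ℝ) ≤ B := Nat.cast_nonneg B
  obtain ⟨M0, hM0⟩ : ∃ M0 : ℝ, M0 = Real.log (1 + 2 * k) + B + 1 := ⟨_, rfl⟩
  have hl2k : 0 ≤ Real.log (1 + 2 * (k : ℝ)) := Real.log_nonneg (by linarith)
  have hM01 : 1 ≤ M0 := by rw [hM0]; linarith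
  obtain ⟨M1, hM1⟩ : ∃ M1 : ℝ, M1 = Real.log (2 / (θ - 1) + 1) + M0 + C' * M0 ^ a := ⟨_, rfl⟩
  have hl3 : 0 ≤ Real.log (2 / (θ - 1) + 1) := Real.log_nonneg (by
    have : 0 < 2 / (θ - 1) := by positivity
    linarith)
  have hM10 : 0 < M1 := by rw [hM1]; positivity
  obtain ⟨M2, hM2⟩ : ∃ M2 : ℝ, M2 = M1 / Real.log θ := ⟨_, rfl⟩
  have hM20 : 0 < M2 := by rw [hM2]; positivity
  -- the choice of δ₀
  have hlim : Tendsto (fun T : ℝ => (M2 + 2) ^ 2 * (T ^ (2 * (a + 1)) * Real.exp (-T))) atTop (𝓝 ((M2 + 2) ^ 2 * 0)) :=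
    (Real.tendsto_pow_mul_exp_neg_atTop_nhds_zero (2 * (a + 1))).const_mul _
  rw [mul_zero] at hlim
  obtain ⟨T0, hT0⟩ := eventually_atTop.1 (hlim.eventually_le_const (zero_lt_one))
  refine ⟨Real.exp (-(max T0 1)), Real.exp_pos _, fun δ hδ hδ0 H hH => ?_⟩
  obtain ⟨T, hT⟩ : ∃ T : ℝ, T = Real.log (1 / δ) := ⟨_, rfl⟩
  have hTδ : Real.exp (-T) = δ := by
    rw [hT, one_div, Real.log_inv, neg_neg, Real.exp_log hδ]
  have hTδ' : Real.exp T = 1 / δ := by rw [hT, Real.exp_log (by positivity)]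
  have hTm : max T0 1 ≤ T := by
    rw [← hTδ] at hδ0
    have := Real.exp_le_exp.1 hδ0
    linarith
  have hT1 : 1 ≤ T := (le_max_right _ _).trans hTm
  have hTT0 : T0 ≤ T := (le_max_left _ _).trans hTm
  have hTa : 1 ≤ T ^ a := one_le_pow₀ hT1
  have hTa1 : 1 ≤ T ^ (a + 1) := one_le_pow₀ hT1
  obtain ⟨H', hH'⟩ : ∃ H' : ℕ, H' = k * (H + 1) := ⟨_, rfl⟩
  have hH'0 : (0 : ℝ) ≤ H' := Nat.cast_nonneg H'
  obtain ⟨lam, hlam⟩ : ∃ lam : ℝ, lam = Real.log (1 + (H' : ℝ)) := ⟨_, rfl⟩
  have hlam0 : 0 ≤ lam := by rw [hlam]; exact Real.log_nonneg (by linarith)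
  have hlamT : lam + 1 ≤ M0 * T := by
    have g1 : 1 + (H' : ℝ) ≤ (1 + 2 * k) * Real.exp (B * T) := by
      have g2 : (H : ℝ) ≤ Real.exp (B * T) := by
        rw [mul_comm, Real.exp_mul, hTδ', Real.rpow_natCast]
        exact hH
      have g3 : 1 ≤ Real.exp (B * T) := Real.one_le_exp (by positivity)
      rw [hH']
      push_cast
      nlinarith
    have g4 : lam ≤ Real.log (1 + 2 * k) + B * T := by
      rw [hlam]
      calc Real.log (1 + (H' : ℝ)) ≤ Real.log ((1 + 2 * k) * Real.exp (B * T)) := Real.log_le_log (by linarith) g1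
        _ = Real.log (1 + 2 * k) + B * T := by
          rw [Real.log_mul (by positivity) (Real.exp_pos _).ne', Real.log_exp]
    have g5 : Real.log (1 + 2 * (k : ℝ)) ≤ Real.log (1 + 2 * k) * T := le_mul_of_one_le_right hl2k hT1
    rw [hM0]
    linarith
  obtain ⟨c0, hc0⟩ : ∃ c0 : ℝ, c0 = Real.exp (-(C' * (lam + 1) ^ a)) := ⟨_, rfl⟩
  have hc00 : 0 < c0 := by rw [hc0]; exact Real.exp_pos _
  obtain ⟨D, hD⟩ : ∃ D : ℕ, D = ⌈M2 * T ^ (a + 1)⌉₊ := ⟨_, rfl⟩
  have hD1 : M2 * T ^ (a + 1) ≤ D := by rw [hD]; exact Nat.le_ceil _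
  have hD2 : (D : ℝ) + 1 ≤ (M2 + 2) * T ^ (a + 1) := by
    have := Nat.ceil_lt_add_one (a := M2 * T ^ (a + 1)) (by positivity)
    rw [← hD] at this
    linarith
  refine ⟨D, ?_, ?_⟩
  · calc ((D : ℝ) + 1) ^ 2 * δ ≤ ((M2 + 2) * T ^ (a + 1)) ^ 2 * δ := by gcongr
      _ = (M2 + 2) ^ 2 * (T ^ (2 * (a + 1)) * Real.exp (-T)) := by
        rw [hTδ]
        ring
      _ ≤ 1 := hT0 T hTT0
  · rw [← hH']
    refine ⟨c0, hc00, ?_, fun h h0 hh => ?_⟩
    · have g1 : 2 * (H' : ℝ) / (θ - 1) + 1 ≤ Real.exp (Real.log (2 / (θ - 1) + 1) + lam) := by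
        rw [Real.exp_add, Real.exp_log (by positivity), hlam, Real.exp_log (by linarith)]
        have g2 : 0 < 2 / (θ - 1) := by positivity
        have g3 : 2 * (H' : ℝ) / (θ - 1) = 2 / (θ - 1) * H' := by ring
        rw [g3]
        nlinarith
      have g2 : θ ^ D = Real.exp ((D : ℝ) * Real.log θ) := by
        rw [mul_comm, Real.exp_mul, Real.exp_log hθ0, Real.rpow_natCast]
      refine g1.trans ?_
      rw [hc0, g2, ← Real.exp_add]
      apply Real.exp_le_exp.2
      have g3 : M1 * T ^ (a + 1) ≤ D * Real.log θ := by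
        have : M1 * T ^ (a + 1) = M2 * T ^ (a + 1) * Real.log θ := by
          rw [hM2]
          field_simp
        rw [this]
        gcongr
      have g4 : (lam + 1) ^ a ≤ M0 ^ a * T ^ a := by
        rw [← mul_pow]
        exact pow_le_pow_left₀ (by linarith) hlamT a
      have g5 : C' * (lam + 1) ^ a ≤ C' * M0 ^ a * T ^ (a + 1) := by
        calc C' * (lam + 1) ^ a ≤ C' * (M0 ^ a * T ^ a) := by gcongr
          _ ≤ C' * (M0 ^ a * T ^ (a + 1)) := by
            have : T ^ a ≤ T ^ (a + 1) := pow_le_pow_right₀ hT1 (by omega)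
            gcongr
          _ = _ := by ring
      have g6 : lam ≤ M0 * T ^ (a + 1) := by
        have : T ≤ T ^ (a + 1) := by
          calc T = T ^ 1 := (pow_one T).symm
            _ ≤ _ := pow_le_pow_right₀ hT1 (by omega)
        have : M0 * T ≤ M0 * T ^ (a + 1) := by gcongr
        linarith
      have g7 : Real.log (2 / (θ - 1) + 1) ≤ Real.log (2 / (θ - 1) + 1) * T ^ (a + 1) := le_mul_of_one_le_right hl3 hTa1
      have g8 : M1 * T ^ (a + 1) = Real.log (2 / (θ - 1) + 1) * T ^ (a + 1) + M0 * T ^ (a + 1) + C' * M0 ^ a * T ^ (a + 1) := by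
        rw [hM1]
        ring
      linarith
    · have g1 := hq H' 0 (Polynomial.C h) (by simpa using h0) (by simp)
        ((supp_C h).trans (by omega)) (by
        intro i
        rw [Polynomial.coeff_C]
        split_ifs
        · exact hh
        · simp)
      simp only [Polynomial.aeval_C, Nat.cast_zero, zero_add] at g1
      rw [hc0, hlam]
      simpa using g1

end Pool.Agent.Helper9.KX
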